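import Mathlib

/-!
# Winning at least one of many copies of a game

A game has `n + 1` players.  Player `t` gets an input `x t` from a finite set `X` and gives an answer
`a t` from a finite set `K`, which depends on the own input only.  We show: if in every situation every
player alone could make the answers good (the others giving the default answer), then for a suitable
number of copies of the game, played at the same time, the players have a strategy which is good in at
least one of the copies, for all inputs.
-/

set_option autoImplicit false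

universe u

namespace Pool.Agent.L7h25.LF

/-- If `y : (Msg → Y) → Y`, then fewer than `|Y|` elements `μ` of `Msg` are such that `i μ ≠ y i` for all
`i : Msg → Y`; so they can be listed by a function on `Y`. -/
lemma exists_list {Msg Y : Type u} [Nonempty Msg] [Nonempty Y] (y : (Msg → Y) → Y) :
    ∃ G : Y → Msg, ∀ μ, (∀ i : Msg → Y, i μ ≠ y i) → ∃ j, G j = μ := by
  classical
  let L : Type u := {μ : Msg // ∀ i : Msg → Y, i μ ≠ y i}
  rcases Function.Embedding.total L Y with ⟨⟨e, he⟩⟩ | ⟨⟨e, he⟩⟩
  · refine ⟨fun j => if hj : ∃ μ : L, e μ = j then (hj.choose : L).1 else Classical.arbitrary Msg, ?_⟩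
    intro μ hμ
    refine ⟨e ⟨μ, hμ⟩, ?_⟩
    have hj : ∃ μ' : L, e μ' = e ⟨μ, hμ⟩ := ⟨_, rfl⟩
    have h1 := he hj.choose_spec
    refine (dif_pos hj).trans ?_
    rw [h1]
  · exfalso
    let i : Msg → Y := fun μ => if hj : ∃ j, (e j).1 = μ then hj.choose else Classical.arbitrary Y
    have h1 : i (e (y i)).1 = y i := by
      have hj : ∃ j, (e j).1 = (e (y i)).1 := ⟨_, rfl⟩
      have h2 : i (e (y i)).1 = hj.choose := dif_pos hj
      rw [h2]
      exact he (Subtype.ext hj.choose_spec)
    exact (e (y i)).2 i h1

/-- The strategy for `n + 1` players. -/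
theorem win_fin (n : ℕ) : ∀ (X K : Type u) [Finite X] [Finite K] [Nonempty X] (k0 : K)
    (Good : (Fin (n + 1) → X) → (Fin (n + 1) → K) → Prop),
    (∀ (x : Fin (n + 1) → X) (t : Fin (n + 1)), ∃ k : K,
      Good x (Function.update (fun _ => k0) t k)) →
    ∃ (ι : Type u) (_ : Finite ι) (b : Fin (n + 1) → (ι → X) → (ι → K)),
      ∀ x : Fin (n + 1) → ι → X, ∃ q : ι, Good (fun t => x t q) (fun t => b t (x t) q) := by
  classical
  induction n with
  | zero =>
    intro X K _ _ _ k0 Good H
    choose A hA using H
    refine ⟨PUnit, inferInstance, fun t x _ => A (fun _ => x PUnit.unit) t, ?_⟩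
    intro x
    refine ⟨PUnit.unit, ?_⟩
    have h1 := hA (fun t => x t PUnit.unit) 0
    have h2 : (Function.update (fun _ => k0) 0 (A (fun t => x t PUnit.unit) 0) : Fin (0 + 1) → K)
        = fun t => A (fun _ => x t PUnit.unit) t := by
      funext t
      have ht : t = 0 := Fin.fin_one_eq_zero t
      subst ht
      rw [Function.update_self]
      congr 1
      funext s
      rw [Fin.fin_one_eq_zero s]
    rw [h2] at h1
    exact h1
  | succ n ih =>
    intro X K _ _ _ k0 Good H
    choose A hA using H
    let Y : Type u := Fin (n + 1) → X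
    let Msg : Type u := Y → X
    let κ : Type u := (Msg → Y) ⊕ Y
    have hG := fun y : (Msg → Y) → Y => exists_list y
    choose G hG using hG
    let Good' : (Fin (n + 1) → (κ → X)) → (Fin (n + 1) → (Y → K)) → Prop := fun x a =>
      ∀ j : Y, Good (Fin.cons (G (fun i t => x t (Sum.inl i)) j j) (fun t => x t (Sum.inr j)))
        (Fin.cons k0 (fun t => a t j))
    obtain ⟨ι, hι, b, hb⟩ := ih (κ → X) (Y → K) (fun _ => k0) Good' (by
      intro x t
      refine ⟨fun j => A (Fin.cons (G (fun i t => x t (Sum.inl i)) j j)
        (fun t => x t (Sum.inr j))) t.succ, ?_⟩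
      intro j
      have h1 := hA (Fin.cons (G (fun i t => x t (Sum.inl i)) j j)
        (fun t => x t (Sum.inr j))) t.succ
      convert h1 using 1
      funext s
      refine Fin.cases ?_ (fun s => ?_) s
      · rw [Fin.cons_zero, Function.update_of_ne (Fin.succ_ne_zero t).symm]
      · rw [Fin.cons_succ]
        by_cases hs : s = t
        · subst hs
          rw [Function.update_self, Function.update_self]
        · rw [Function.update_of_ne hs, Function.update_of_ne (fun h => hs (Fin.succ_injective _ h))])
    have := hι
    refine ⟨ι × κ, inferInstance, ?_⟩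
    let B0 : (ι × κ → X) → (ι × κ → K) := fun x p =>
      match p.2 with
      | Sum.inl i => A (Fin.cons (x p) (i (fun j => x (p.1, Sum.inr j)))) 0
      | Sum.inr _ => k0
    let B1 : Fin (n + 1) → (ι × κ → X) → (ι × κ → K) := fun t x p =>
      match p.2 with
      | Sum.inl _ => k0
      | Sum.inr j => b t (fun c q => x (c, q)) p.1 j
    refine ⟨Fin.cons B0 B1, ?_⟩
    intro x
    obtain ⟨c, hc⟩ := hb (fun t c q => x t.succ (c, q))
    by_cases hi : ∃ i : Msg → Y, i (fun j => x 0 (c, Sum.inr j)) = fun t => x t.succ (c, Sum.inl i)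
    · obtain ⟨i, hi⟩ := hi
      refine ⟨(c, Sum.inl i), ?_⟩
      have h1 := hA (Fin.cons (x 0 (c, Sum.inl i)) (i (fun j => x 0 (c, Sum.inr j)))) 0
      convert h1 using 1
      · funext t
        refine Fin.cases ?_ (fun t => ?_) t
        · rw [Fin.cons_zero]
        · rw [Fin.cons_succ, hi]
      · funext t
        refine Fin.cases ?_ (fun t => ?_) t
        · rw [Fin.cons_zero, Function.update_self]
        · rw [Fin.cons_succ, Function.update_of_ne (Fin.succ_ne_zero t)]
    · push Not at hi
      obtain ⟨j, hj⟩ := hG (fun i t => x t.succ (c, Sum.inl i)) _ hi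
      refine ⟨(c, Sum.inr j), ?_⟩
      have h1 := hc j
      convert h1 using 1
      · funext t
        refine Fin.cases ?_ (fun t => ?_) t
        · rw [Fin.cons_zero, hj]
        · rw [Fin.cons_succ]
      · funext t
        refine Fin.cases ?_ (fun t => ?_) t
        · rw [Fin.cons_zero, Fin.cons_zero]
        · rw [Fin.cons_succ, Fin.cons_succ]

/-- The strategy for a finite nonempty set `T` of players. -/
theorem win {T : Type*} [Finite T] [Nonempty T] [DecidableEq T] {X K : Type u} [Finite X] [Finite K]
    [Nonempty X] (k0 : K) (Good : (T → X) → (T → K) → Prop)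
    (H : ∀ (x : T → X) (t : T), ∃ k : K, Good x (Function.update (fun _ => k0) t k)) :
    ∃ (ι : Type u) (_ : Finite ι) (b : T → (ι → X) → (ι → K)),
      ∀ x : T → ι → X, ∃ q : ι, Good (fun t => x t q) (fun t => b t (x t) q) := by
  classical
  have := Fintype.ofFinite T
  obtain ⟨n, hn⟩ : ∃ n, Fintype.card T = n + 1 :=
    ⟨Fintype.card T - 1, (Nat.succ_pred_eq_of_pos Fintype.card_pos).symm⟩
  let e : T ≃ Fin (n + 1) := Fintype.equivFinOfCardEq hn
  obtain ⟨ι, hι, b, hb⟩ := win_fin n X K k0 (fun x a => Good (fun t => x (e t)) (fun t => a (e t))) (by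
    intro x s
    obtain ⟨k, hk⟩ := H (fun t => x (e t)) (e.symm s)
    refine ⟨k, ?_⟩
    convert hk using 1
    funext t
    by_cases ht : e t = s
    · rw [ht, Function.update_self]
      have : t = e.symm s := by rw [← ht, Equiv.symm_apply_apply]
      rw [this, Function.update_self]
    · rw [Function.update_of_ne ht]
      have : t ≠ e.symm s := by
        rintro rfl
        exact ht (Equiv.apply_symm_apply _ _)
      rw [Function.update_of_ne this])
  refine ⟨ι, hι, fun t => b (e t), fun x => ?_⟩
  obtain ⟨q, hq⟩ := hb (fun s => x (e.symm s))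
  refine ⟨q, ?_⟩
  simpa using hq

end Pool.Agent.L7h25.LF
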