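import Mathlib
import Pool.Agent.TH282.LF.CharP
import Pool.Agent.L7h25.LF.Win

/-!
# Avoidable patterns and right ideals

A pattern is avoidable if and only if some finite module `U` has a proper subgroup `M` which is closed
for the pattern, if and only if the ring has a proper right ideal of finite index which is closed for
the pattern.
-/

set_option autoImplicit false

open Finset

universe u

namespace Pool.Agent.L7h25.LF

open H183R3.LF Pool.Agent.TH282.LF

/-- A finite module on which `f` is onto and which has a proper closed subgroup makes a pattern avoidable. -/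
theorem avoidable_of_closedSubgroup {R : Type u} [Ring R] {h l : ℕ} (f : Fin h → R) (g : Fin l → R)
    (P : Fin l → Fin h × Fin l) (U : Type u) [AddCommGroup U] [Module R U] [Finite U]
    (hf : ∀ w : U, ∃ a : Fin h → U, ∑ i, f i • a i = w) (M : AddSubgroup U) (hM : M ≠ ⊤)
    (hcl : ∀ t, (∀ a : Fin h → U, ∑ i, f i • a i = 0 → ∑ i, classVec g P t i • a i ∈ M) →
      ∀ a : Fin h → U, ∑ i, classVec g P t i • a i ∈ M) :
    Avoidable R f g P := by
  classical
  choose e he using hf
  let bad : Fin l → Prop := fun t =>
    ∃ a : Fin h → U, ∑ i, f i • a i = 0 ∧ ∑ i, classVec g P t i • a i ∉ M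
  have hκ : ∀ t, ∃ a : Fin h → U, ∑ i, f i • a i = 0 ∧
      (bad t → ∑ i, classVec g P t i • a i ∉ M) := by
    intro t
    by_cases ht : bad t
    · obtain ⟨a, h1, h2⟩ := ht
      exact ⟨a, h1, fun _ => h2⟩
    · exact ⟨0, by simp, fun h => absurd h ht⟩
  choose κ hκ1 hκ2 using hκ
  have hnb : ∀ t, ¬ bad t → ∀ a : Fin h → U, ∑ i, classVec g P t i • a i ∈ M := by
    intro t ht
    apply hcl
    intro a ha
    by_contra hcon
    exact ht ⟨a, ha, hcon⟩
  by_cases hne : ∃ t, bad t
  · -- the players are the bad classes
    let T : Type := {t : Fin l // bad t}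
    have : Nonempty T := ⟨⟨hne.choose, hne.choose_spec⟩⟩
    let v : Fin l → U → Bool → U := fun t w β =>
      ∑ i, classVec g P t i • (e w i + if β = true then κ t i else 0)
    let Good : (T → U) → (T → ULift.{u} Bool) → Prop := fun x β =>
      ∑ t : T, v t.1 (x t) (β t).down ∉ M
    have hv : ∀ t w, v t w true - v t w false = ∑ i, classVec g P t i • κ t i := by
      intro t w
      simp only [v, if_true, Bool.false_eq_true, if_false, smul_add, Finset.sum_add_distrib,
        smul_zero, Finset.sum_const_zero, add_zero]
      rw [add_sub_cancel_left]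
    obtain ⟨ι, hι, b, hb⟩ := win (T := T) (X := U) (K := ULift.{u} Bool) ⟨false⟩ Good (by
      intro x t
      by_contra hcon
      push Not at hcon
      have h1 : ∑ s : T, v s.1 (x s)
          ((Function.update (fun _ => (⟨false⟩ : ULift.{u} Bool)) t ⟨true⟩ : T → ULift.{u} Bool) s).down
            ∈ M := by
        by_contra h
        exact hcon ⟨true⟩ h
      have h2 : ∑ s : T, v s.1 (x s)
          ((Function.update (fun _ => (⟨false⟩ : ULift.{u} Bool)) t ⟨false⟩ : T → ULift.{u} Bool) s).down
            ∈ M := by
        by_contra h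
        exact hcon ⟨false⟩ h
      have h3 := M.sub_mem h1 h2
      rw [← Finset.sum_sub_distrib, Finset.sum_eq_single t] at h3
      · rw [Function.update_self, Function.update_self] at h3
        have h4 : v t.1 (x t) true - v t.1 (x t) false ∈ M := h3
        rw [hv] at h4
        exact hκ2 t.1 t.2 h4
      · intro s _ hs
        rw [Function.update_of_ne hs, Function.update_of_ne hs, sub_self]
      · intro h
        exact absurd (Finset.mem_univ _) h)
    have := hι
    let A : Fin l → Fin h → (ι → U) → (ι → U) := fun t i w q => e (w q) i + if ht : bad t then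
        (if (b ⟨t, ht⟩ w q).down = true then κ t i else 0) else 0
    refine ⟨ι → U, inferInstance, inferInstance, inferInstance, A, 0, ?_, ?_⟩
    · intro t w
      funext q
      rw [Finset.sum_apply]
      simp only [A, Pi.smul_apply, smul_add, Finset.sum_add_distrib]
      rw [he, add_eq_left]
      by_cases ht : bad t
      · simp only [dif_pos ht]
        by_cases hβ : (b ⟨t, ht⟩ w q).down = true
        · simp only [hβ, if_true]
          exact hκ1 t
        · simp [hβ]
      · simp [ht]
    · intro w heq0
      have heq := (sum_classVec g P A w).symm.trans heq0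
      obtain ⟨q, hq⟩ := hb (fun t => w t.1)
      apply hq
      have h1 := congrFun heq q
      rw [Finset.sum_apply] at h1
      have h2 : ∑ t, (∑ i, classVec g P t i • A t i (w t)) q
          = ∑ t, if ht : bad t then v t (w t q) (b ⟨t, ht⟩ (w t) q).down
            else ∑ i, classVec g P t i • e (w t q) i := by
        refine Finset.sum_congr rfl fun t _ => ?_
        rw [Finset.sum_apply]
        by_cases ht : bad t
        · rw [dif_pos ht]
          refine Finset.sum_congr rfl fun i _ => ?_
          simp only [A, Pi.smul_apply, dif_pos ht]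
        · rw [dif_neg ht]
          refine Finset.sum_congr rfl fun i _ => ?_
          simp only [A, Pi.smul_apply, dif_neg ht, add_zero]
      have h3 : (∑ t, if ht : bad t then v t (w t q) (b ⟨t, ht⟩ (w t) q).down
            else ∑ i, classVec g P t i • e (w t q) i) ∈ M := by
        rw [← h2, h1]
        exact M.zero_mem
      have h4 : (∑ t : T, v t.1 (w t.1 q) (b t (w t.1) q).down)
          = ∑ t ∈ Finset.univ.filter bad, (if ht : bad t then v t (w t q) (b ⟨t, ht⟩ (w t) q).down
            else ∑ i, classVec g P t i • e (w t q) i) := by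
        rw [Finset.sum_subtype (Finset.univ.filter bad) (p := bad) (by simp)]
        refine Finset.sum_congr rfl fun t _ => ?_
        rw [dif_pos t.2]
      rw [h4]
      rw [← Finset.sum_filter_add_sum_filter_not _ bad] at h3
      refine (M.add_mem_cancel_right ?_).1 h3
      refine M.sum_mem fun t ht => ?_
      have ht' : ¬ bad t := (Finset.mem_filter.1 ht).2
      rw [dif_neg ht']
      exact hnb t ht' _
  · push Not at hne
    obtain ⟨z, hz⟩ : ∃ z, z ∉ M := by
      by_contra hcon
      push Not at hcon
      exact hM ((AddSubgroup.eq_top_iff' M).2 hcon)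
    refine ⟨U, inferInstance, inferInstance, inferInstance, fun _ i w => e w i, z, fun _ w => he w, ?_⟩
    intro w heq0
    have heq := (sum_classVec g P (fun _ i w => e w i) w).symm.trans heq0
    apply hz
    rw [← heq]
    exact M.sum_mem fun t _ => hnb t (hne t) _

/-- An avoidable pattern gives a finite module on which `f` is onto, with a proper closed subgroup. -/
theorem closedSubgroup_of_avoidable {R : Type u} [Ring R] {h l : ℕ} (f : Fin h → R) (g : Fin l → R)
    (hl : 0 < l) (P : Fin l → Fin h × Fin l) (H : Avoidable R f g P) :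
    ∃ (U : Type u) (_ : AddCommGroup U) (_ : Module R U) (_ : Finite U) (M : AddSubgroup U),
      (∀ w : U, ∃ a : Fin h → U, ∑ i, f i • a i = w) ∧ M ≠ ⊤ ∧
      ∀ t, (∀ a : Fin h → U, ∑ i, f i • a i = 0 → ∑ i, classVec g P t i • a i ∈ M) →
        ∀ a : Fin h → U, ∑ i, classVec g P t i • a i ∈ M := by
  classical
  obtain ⟨U, i1, i2, i3, a, z, ha, hz⟩ := H
  have hz' : ∀ u : Fin l → U, ∑ t, ∑ i, classVec g P t i • a t i (u t) ≠ z := by
    intro u
    rw [← sum_classVec]
    exact hz u
  -- the additive map of a class
  let Lh : Fin l → (Fin h → U) →+ U := fun t =>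
    { toFun := fun b => ∑ i, classVec g P t i • b i
      map_zero' := by simp
      map_add' := fun b c => by simp [smul_add, Finset.sum_add_distrib] }
  let MT : Finset (Fin l) → AddSubgroup U := fun T => ⨆ t ∈ T, (Lh t).range
  let Q : Finset (Fin l) → Prop := fun T => ∀ w ∈ MT T, ∃ u : Fin l → U,
    ∑ t ∈ T, ∑ i, classVec g P t i • a t i (u t) = w
  have hQ0 : Q ∅ := by
    intro w hw
    refine ⟨0, ?_⟩
    have h1 : MT ∅ = ⊥ := by simp [MT]
    rw [h1, AddSubgroup.mem_bot] at hw
    rw [hw, Finset.sum_empty]
  obtain ⟨T, hT1, hT2⟩ : ∃ T, Q T ∧ ∀ T', Q T' → T'.card ≤ T.card := by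
    obtain ⟨T, hT1, hT2⟩ := Finset.exists_max_image (Finset.univ.filter Q) Finset.card
      ⟨∅, Finset.mem_filter.2 ⟨Finset.mem_univ _, hQ0⟩⟩
    exact ⟨T, (Finset.mem_filter.1 hT1).2, fun T' hT' =>
      hT2 T' (Finset.mem_filter.2 ⟨Finset.mem_univ _, hT'⟩)⟩
  refine ⟨U, i1, i2, i3, MT T, fun w => ⟨fun i => a ⟨0, hl⟩ i w, ha _ w⟩, ?_, ?_⟩
  · intro htop
    obtain ⟨v, hv⟩ := hT1 (z - ∑ t ∈ Tᶜ, ∑ i, classVec g P t i • a t i 0) (by rw [htop]; trivial)
    apply hz' (fun t => if t ∈ T then v t else 0)
    rw [← Finset.sum_add_sum_compl T]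
    have e1 : ∑ t ∈ T, ∑ i, classVec g P t i • a t i (if t ∈ T then v t else 0)
        = ∑ t ∈ T, ∑ i, classVec g P t i • a t i (v t) :=
      Finset.sum_congr rfl fun t ht => by rw [if_pos ht]
    have e2 : ∑ t ∈ Tᶜ, ∑ i, classVec g P t i • a t i (if t ∈ T then v t else 0)
        = ∑ t ∈ Tᶜ, ∑ i, classVec g P t i • a t i 0 :=
      Finset.sum_congr rfl fun t ht => by rw [if_neg (Finset.mem_compl.1 ht)]
    rw [e1, e2, hv]
    abel
  · intro t hK
    have hle : ∀ t ∈ T, (Lh t).range ≤ MT T := fun t ht => le_biSup (fun t => (Lh t).range) ht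
    have htT : t ∈ T := by
      by_contra htT
      have hQ : Q (insert t T) := by
        intro w hw
        have h1 : MT (insert t T) = (Lh t).range ⊔ MT T := by
          simp only [MT]
          rw [Finset.iSup_insert]
        rw [h1] at hw
        obtain ⟨y1, hy1, y2, hy2, rfl⟩ := AddSubgroup.mem_sup.1 hw
        obtain ⟨b, rfl⟩ := hy1
        set w0 : U := ∑ i, f i • b i with hw0
        have h2 : ∑ i, classVec g P t i • (b i - a t i w0) ∈ MT T := by
          apply hK
          simp only [smul_sub, Finset.sum_sub_distrib]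
          rw [ha, hw0, sub_self]
        have h3 : Lh t b = ∑ i, classVec g P t i • (b i - a t i w0)
            + ∑ i, classVec g P t i • a t i w0 := by
          show ∑ i, classVec g P t i • b i = _
          rw [← Finset.sum_add_distrib]
          refine Finset.sum_congr rfl fun i _ => ?_
          rw [← smul_add, sub_add_cancel]
        obtain ⟨v, hv⟩ := hT1 _ ((MT T).add_mem h2 hy2)
        refine ⟨fun t' => if t' = t then w0 else v t', ?_⟩
        rw [Finset.sum_insert htT]
        have e1 : ∑ t' ∈ T, ∑ i, classVec g P t' i • a t' i (if t' = t then w0 else v t')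
            = ∑ t' ∈ T, ∑ i, classVec g P t' i • a t' i (v t') :=
          Finset.sum_congr rfl fun t' ht' => by
            have : t' ≠ t := by
              rintro rfl
              exact htT ht'
            rw [if_neg this]
        have e0 : ∑ i, classVec g P t i • a t i (if t = t then w0 else v t)
            = ∑ i, classVec g P t i • a t i w0 := by rw [if_pos rfl]
        refine (congrArg₂ (· + ·) e0 e1).trans ?_
        rw [hv, h3]
        abel
      have h5 := hT2 _ hQ
      rw [Finset.card_insert_of_notMem htT] at h5
      omega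
    intro b
    exact hle t htT ⟨b, rfl⟩

/-- A right ideal `J` (an additive subgroup closed under multiplication from the right), of finite
index and proper, on which `f` is regular and which is closed for the pattern. -/
def Closed {R : Type u} [Ring R] {h l : ℕ} (f : Fin h → R) (g : Fin l → R)
    (P : Fin l → Fin h × Fin l) (J : AddSubgroup R) : Prop :=
  (∀ x ∈ J, ∀ r : R, x * r ∈ J) ∧ J ≠ ⊤ ∧ Finite (R ⧸ J) ∧
    (∀ v : R, (∀ i, v * f i ∈ J) → v ∈ J) ∧
    ∀ t, (∃ v : R, ∀ i, classVec g P t i - v * f i ∈ J) → ∀ i, classVec g P t i ∈ J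

theorem rightIdeal_of_closedSubgroup {R : Type u} [Ring R] {h l : ℕ} (f : Fin h → R) (g : Fin l → R)
    (P : Fin l → Fin h × Fin l) (U : Type u) [AddCommGroup U] [Module R U] [Finite U]
    (M : AddSubgroup U)
    (hf : ∀ w : U, ∃ a : Fin h → U, ∑ i, f i • a i = w) (hM : M ≠ ⊤)
    (hcl : ∀ t, (∀ a : Fin h → U, ∑ i, f i • a i = 0 → ∑ i, classVec g P t i • a i ∈ M) →
      ∀ a : Fin h → U, ∑ i, classVec g P t i • a i ∈ M) :
    ∃ J : AddSubgroup R, Closed f g P J := by
  classical
  let J : AddSubgroup R :=
    { carrier := {r | ∀ w : U, r • w ∈ M}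
      zero_mem' := fun w => by rw [zero_smul]; exact M.zero_mem
      add_mem' := fun {r s} hr hs w => by rw [add_smul]; exact M.add_mem (hr w) (hs w)
      neg_mem' := fun {r} hr w => by rw [neg_smul]; exact M.neg_mem (hr w) }
  refine ⟨J, ?_, ?_, ?_, ?_, ?_⟩
  · intro x hx r w
    rw [mul_smul]
    exact hx _
  · intro htop
    apply hM
    rw [AddSubgroup.eq_top_iff']
    intro w
    have h1 : (1 : R) ∈ J := by rw [htop]; trivial
    have := h1 w
    rwa [one_smul] at this
  · let φ : R →+ (U → U ⧸ M) :=
      { toFun := fun r w => QuotientAddGroup.mk (r • w)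
        map_zero' := by funext w; rw [zero_smul]; rfl
        map_add' := fun r s => by funext w; rw [add_smul]; rfl }
    have hker : φ.ker = J := by
      ext r
      rw [AddMonoidHom.mem_ker]
      constructor
      · intro hr w
        exact (QuotientAddGroup.eq_zero_iff _).1 (congrFun hr w)
      · intro hr
        funext w
        exact (QuotientAddGroup.eq_zero_iff _).2 (hr w)
    rw [← hker]
    exact Finite.of_injective _ (QuotientAddGroup.kerLift_injective φ)
  · intro v hv w
    obtain ⟨a, ha⟩ := hf w
    rw [← ha, Finset.smul_sum]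
    refine M.sum_mem fun i _ => ?_
    rw [← mul_smul]
    exact hv i _
  · rintro t ⟨v, hv⟩
    have h1 := hcl t (by
      intro a ha
      have h2 : ∑ i, classVec g P t i • a i = ∑ i, (classVec g P t i - v * f i) • a i := by
        have h3 : ∑ i, (v * f i) • a i = 0 := by
          simp only [mul_smul]
          rw [← Finset.smul_sum, ha, smul_zero]
        simp only [sub_smul, Finset.sum_sub_distrib]
        rw [h3, sub_zero]
      rw [h2]
      exact M.sum_mem fun i _ => hv i _)
    intro i w
    have h2 := h1 (Pi.single i w)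
    rw [Finset.sum_eq_single i (fun j _ hj => by rw [Pi.single_eq_of_ne hj, smul_zero])
      (fun hn => absurd (Finset.mem_univ _) hn), Pi.single_eq_same] at h2
    exact h2

end Pool.Agent.L7h25.LF
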