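import Mathlib
import Pool.Agent.L7h25.LF.Crit

/-!
# From a closed right ideal to a finite module with a closed subgroup

Let `J` be a right ideal of finite index. The additive characters `R ⧸ J → ℚ ⧸ ℤ` form a finite left
module `U`; the characters vanishing at `1` form the subgroup `M`.
-/

set_option autoImplicit false

open Finset

universe u

namespace Pool.Agent.L7h25.LF

open H183R3.LF Pool.Agent.TH282.LF

/-- additive characters of `R ⧸ J` with values in `ℚ ⧸ ℤ`, for a right ideal `J` -/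
def Dual {R : Type u} [Ring R] (J : AddSubgroup R) (_ : ∀ x ∈ J, ∀ r : R, x * r ∈ J) : Type u :=
  (R ⧸ J) →+ AddCircle (1 : ℚ)

variable {R : Type u} [Ring R] {J : AddSubgroup R} {hJ : ∀ x ∈ J, ∀ r : R, x * r ∈ J}

noncomputable instance : AddCommGroup (Dual J hJ) :=
  inferInstanceAs (AddCommGroup ((R ⧸ J) →+ AddCircle (1 : ℚ)))

/-- multiplication from the right on `R ⧸ J` -/
def mulR (hJ : ∀ x ∈ J, ∀ r : R, x * r ∈ J) (r : R) : (R ⧸ J) →+ (R ⧸ J) :=
  QuotientAddGroup.map J J (AddMonoidHom.mulRight r) (fun x hx => hJ x hx r)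

lemma mulR_mk (r v : R) : mulR hJ r (QuotientAddGroup.mk v) = QuotientAddGroup.mk (v * r) := rfl

/-- evaluation of a character -/
def Dual.ev (v : R) : Dual J hJ →+ AddCircle (1 : ℚ) where
  toFun φ := (show (R ⧸ J) →+ AddCircle (1 : ℚ) from φ) (QuotientAddGroup.mk v)
  map_zero' := rfl
  map_add' _ _ := rfl

lemma Dual.ext' {φ ψ : Dual J hJ} (h : ∀ v, Dual.ev v φ = Dual.ev v ψ) : φ = ψ := by
  have : (show (R ⧸ J) →+ AddCircle (1 : ℚ) from φ) = (show (R ⧸ J) →+ AddCircle (1 : ℚ) from ψ) := by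
    refine AddMonoidHom.ext fun v => ?_
    obtain ⟨v, rfl⟩ := QuotientAddGroup.mk_surjective v
    exact h v
  exact this

noncomputable instance : SMul R (Dual J hJ) where
  smul r φ := AddMonoidHom.comp (show (R ⧸ J) →+ AddCircle (1 : ℚ) from φ) (mulR hJ r)

lemma Dual.ev_smul (v r : R) (φ : Dual J hJ) : Dual.ev v (r • φ) = Dual.ev (v * r) φ := rfl

lemma Dual.ev_add (v w : R) (φ : Dual J hJ) : Dual.ev (v + w) φ = Dual.ev v φ + Dual.ev w φ :=
  (show (R ⧸ J) →+ AddCircle (1 : ℚ) from φ).map_add (QuotientAddGroup.mk v) (QuotientAddGroup.mk w)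

lemma Dual.ev_mem (v : R) (hv : v ∈ J) (φ : Dual J hJ) : Dual.ev v φ = 0 := by
  have h1 : (QuotientAddGroup.mk v : R ⧸ J) = 0 := (QuotientAddGroup.eq_zero_iff v).2 hv
  show (show (R ⧸ J) →+ AddCircle (1 : ℚ) from φ) (QuotientAddGroup.mk v) = 0
  rw [h1]
  exact map_zero _

noncomputable instance : Module R (Dual J hJ) where
  one_smul φ := Dual.ext' fun v => by rw [Dual.ev_smul, mul_one]
  mul_smul r s φ := Dual.ext' fun v => by rw [Dual.ev_smul, Dual.ev_smul, Dual.ev_smul, mul_assoc]
  smul_zero r := rfl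
  smul_add r φ ψ := rfl
  add_smul r s φ := Dual.ext' fun v => by
    rw [Dual.ev_smul, mul_add, Dual.ev_add, map_add, Dual.ev_smul, Dual.ev_smul]
  zero_smul φ := Dual.ext' fun v => by
    rw [Dual.ev_smul, mul_zero, map_zero, Dual.ev_mem 0 J.zero_mem]

/-- the components of a character of the power of `R ⧸ J` -/
noncomputable def Dual.cmp (hJ : ∀ x ∈ J, ∀ r : R, x * r ∈ J) {h : ℕ}
    (Φ : (Fin h → R ⧸ J) →+ AddCircle (1 : ℚ)) (i : Fin h) : Dual J hJ :=
  Φ.comp (AddMonoidHom.single (fun _ => R ⧸ J) i)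

lemma finite_hom (V : Type u) [AddCommGroup V] [Finite V] : Finite (V →+ AddCircle (1 : ℚ)) := by
  have hn : 0 < Nat.card V := Nat.card_pos
  have hfin : Finite {u : AddCircle (1 : ℚ) | Nat.card V • u = 0} :=
    (AddCircle.finite_torsion (1 : ℚ) hn).to_subtype
  let ψ : (V →+ AddCircle (1 : ℚ)) → (V → {u : AddCircle (1 : ℚ) | Nat.card V • u = 0}) :=
    fun φ v => ⟨φ v, by
      show Nat.card V • φ v = 0
      rw [← map_nsmul, card_nsmul_eq_zero', map_zero]⟩
  apply Finite.of_injective ψ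
  intro φ φ' h
  refine AddMonoidHom.ext fun v => ?_
  exact congrArg Subtype.val (congrFun h v)

instance [Finite (R ⧸ J)] : Finite (Dual J hJ) := finite_hom (R ⧸ J)

/-- a character which vanishes on a subgroup, but not at a given point outside -/
lemma exists_character {V : Type*} [AddCommGroup V] (N : AddSubgroup V) {x : V} (hx : x ∉ N) :
    ∃ Φ : V →+ AddCircle (1 : ℚ), (∀ y ∈ N, Φ y = 0) ∧ Φ x ≠ 0 := by
  have h1 : (QuotientAddGroup.mk x : V ⧸ N) ≠ 0 := by
    rw [Ne, QuotientAddGroup.eq_zero_iff]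
    exact hx
  obtain ⟨c, hc⟩ := CharacterModule.exists_character_apply_ne_zero_of_ne_zero h1
  refine ⟨AddMonoidHom.comp (show (V ⧸ N) →+ AddCircle (1 : ℚ) from c) (QuotientAddGroup.mk' N),
    ?_, hc⟩
  intro y hy
  have h2 : (QuotientAddGroup.mk y : V ⧸ N) = 0 := (QuotientAddGroup.eq_zero_iff y).2 hy
  show (show (V ⧸ N) →+ AddCircle (1 : ℚ) from c) (QuotientAddGroup.mk y) = 0
  rw [h2]
  exact map_zero _

/-- extension of characters -/
lemma extend_character {V W : Type*} [AddCommGroup V] [AddCommGroup W] (F : V →+ W)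
    (hF : Function.Injective F) (φ : V →+ AddCircle (1 : ℚ)) :
    ∃ Φ : W →+ AddCircle (1 : ℚ), ∀ v, Φ (F v) = φ v := by
  obtain ⟨Φ, hΦ⟩ := CharacterModule.dual_surjective_of_injective (R := ℤ) (A := V) (B := W)
    F.toIntLinearMap hF φ
  refine ⟨Φ, fun v => ?_⟩
  exact DFunLike.congr_fun hΦ v

/-- A closed right ideal gives a finite module with a proper closed subgroup. -/
theorem avoidable_of_rightIdeal {h l : ℕ} (f : Fin h → R) (g : Fin l → R)
    (P : Fin l → Fin h × Fin l) (J : AddSubgroup R) (HJ : Closed f g P J) : Avoidable R f g P := by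
  classical
  obtain ⟨hJ, hJtop, hfin, hreg, hcl⟩ := HJ
  -- splitting a character of the power into its components
  have hsplit : ∀ (Φ : (Fin h → R ⧸ J) →+ AddCircle (1 : ℚ)) (v : Fin h → R),
      Φ (fun i => QuotientAddGroup.mk (v i))
        = ∑ i, Dual.ev (v i) (Dual.cmp hJ Φ i) := by
    intro Φ v
    conv_lhs => rw [← Finset.univ_sum_single (fun i => (QuotientAddGroup.mk (v i) : R ⧸ J)), map_sum]
    exact Finset.sum_congr rfl fun i _ => rfl
  have h1 : (1 : R) ∉ J := by
    intro h1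
    apply hJtop
    rw [AddSubgroup.eq_top_iff']
    intro r
    have := hJ 1 h1 r
    rwa [one_mul] at this
  let M : AddSubgroup (Dual J hJ) := (Dual.ev (hJ := hJ) (1 : R)).ker
  have hevsum : ∀ (c : Fin h → R) (a : Fin h → Dual J hJ) (v : R),
      Dual.ev v (∑ i, c i • a i) = ∑ i, Dual.ev (v * c i) (a i) := by
    intro c a v
    rw [map_sum]
    exact Finset.sum_congr rfl fun i _ => Dual.ev_smul _ _ _
  -- the map v ↦ (v * f i)
  let Fm : (R ⧸ J) →+ (Fin h → R ⧸ J) :=
    { toFun := fun v i => mulR hJ (f i) v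
      map_zero' := by funext i; exact map_zero _
      map_add' := fun v w => by funext i; exact map_add _ v w }
  have hFm : ∀ v : R, Fm (QuotientAddGroup.mk v) = fun i => QuotientAddGroup.mk (v * f i) :=
    fun v => rfl
  refine avoidable_of_closedSubgroup f g P (Dual J hJ) ?_ M ?_ ?_
  · intro φ
    have hinj : Function.Injective Fm := by
      rw [injective_iff_map_eq_zero]
      intro v hv
      obtain ⟨v, rfl⟩ := QuotientAddGroup.mk_surjective v
      rw [QuotientAddGroup.eq_zero_iff]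
      apply hreg
      intro i
      rw [← QuotientAddGroup.eq_zero_iff]
      exact congrFun hv i
    obtain ⟨Φ, hΦ⟩ := extend_character Fm hinj (show (R ⧸ J) →+ AddCircle (1 : ℚ) from φ)
    refine ⟨Dual.cmp hJ Φ, ?_⟩
    apply Dual.ext'
    intro v
    rw [hevsum, ← hsplit]
    exact hΦ (QuotientAddGroup.mk v)
  · intro htop
    obtain ⟨Φ, -, hΦ⟩ := exists_character (⊥ : AddSubgroup (R ⧸ J))
      (x := (QuotientAddGroup.mk (1 : R))) (by
        rw [AddSubgroup.mem_bot, QuotientAddGroup.eq_zero_iff]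
        exact h1)
    apply hΦ
    have h2 : (Φ : Dual J hJ) ∈ M := by rw [htop]; trivial
    exact h2
  · intro t ht
    have h2 : ∀ i, classVec g P t i ∈ J := by
      apply hcl
      by_contra hcon
      have hx : (fun i => (QuotientAddGroup.mk (classVec g P t i) : R ⧸ J)) ∉ Fm.range := by
        rintro ⟨v, hv⟩
        obtain ⟨v, rfl⟩ := QuotientAddGroup.mk_surjective v
        apply hcon
        refine ⟨v, fun i => ?_⟩
        have h3 := congrFun hv i
        rw [hFm] at h3
        have h4 := (QuotientAddGroup.eq.1 h3)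
        rwa [neg_add_eq_sub] at h4
      obtain ⟨Φ, hΦ1, hΦ2⟩ := exists_character Fm.range hx
      apply hΦ2
      rw [hsplit]
      have h5 := ht (Dual.cmp hJ Φ) (by
        apply Dual.ext'
        intro v
        rw [hevsum, ← hsplit, map_zero]
        exact hΦ1 _ ⟨QuotientAddGroup.mk v, rfl⟩)
      have h6 : Dual.ev 1 (∑ i, classVec g P t i • Dual.cmp hJ Φ i) = 0 := h5
      rw [hevsum] at h6
      simpa only [one_mul] using h6
    intro a
    show Dual.ev 1 (∑ i, classVec g P t i • a i) = 0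
    rw [hevsum]
    refine Finset.sum_eq_zero fun i _ => ?_
    rw [one_mul]
    exact Dual.ev_mem _ (h2 i) _

/-- A pattern is avoidable if and only if there is a closed right ideal. -/
theorem avoidable_iff {h l : ℕ} (f : Fin h → R) (g : Fin l → R) (hl : 0 < l)
    (P : Fin l → Fin h × Fin l) : Avoidable R f g P ↔ ∃ J : AddSubgroup R, Closed f g P J := by
  constructor
  · intro H
    obtain ⟨U, _, _, _, M, h1, h2, h3⟩ := closedSubgroup_of_avoidable f g hl P H
    exact rightIdeal_of_closedSubgroup f g P U M h1 h2 h3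
  · rintro ⟨J, HJ⟩
    exact avoidable_of_rightIdeal f g P J HJ

end Pool.Agent.L7h25.LF
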